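import Pool.Graph.R_pool_sql_team_seeded_3997aac3.Results.MP_7ba13c_lc.PerfectRegular

/-!
# Free associative algebras of finite rank: definable orbits, and recognition from one level of types

For every field `P` and every free algebra `W(X)`, `X` finite, of the variety `Ass-P`: every orbit of
`Aut W(X)` on tuples is defined by a single formula without parameters, and there is one first-order
sentence which, among the algebras all of whose `(|X|+1)`-types are realised in `W(X)`,
characterises `W(X)`.
-/

set_option autoImplicit false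

namespace Pool.Agent.Results.MP_7ba13c_lc.DefinableOrbits

open FirstOrder FirstOrder.Language
open Pool.Agent.Helper771.FreeNilp (AlgFn algLang)
open Pool.Agent.Q202.FA
open Pool.Agent.Results.MP_7ba13c_lc.PerfectRegular (IsFree lang tp S)

universe u v w w'

/-- Every orbit of the automorphism group of `H` on the tuples of `H` (of any finite length) is the
solution set of a single first-order formula without parameters. -/
def OrbitsDefinable (P : Type u) [Field P] (H : Type v) [NonUnitalRing H] [Module P H] : Prop :=
  ∀ (k : ℕ) (a : Fin k → H), ∃ φ : (lang P).Formula (Fin k), ∀ b : Fin k → H,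
    φ.Realize b ↔ ∃ σ : H →ₙₐ[P] H, Function.Bijective σ ∧ ∀ i, σ (a i) = b i

/-- There is one first-order sentence `θ`, true in `H`, such that every associative `P`-algebra `H'`
(in the universe `v`) which satisfies `θ`, and all of whose types of `m`-tuples are realised in `H`,
is isomorphic to `H`. -/
def SeparatedBy (P : Type u) [Field P] (H : Type u) [NonUnitalRing H] [Module P H] (m : ℕ) :
    Prop :=
  ∃ θ : (lang P).Sentence, H ⊨ θ ∧
    ∀ (H' : Type v) [NonUnitalRing H'] [Module P H'] [IsScalarTower P H' H']
      [SMulCommClass P H' H'], H' ⊨ θ → S P H' m ⊆ S P H m →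
      ∃ f : H →ₙₐ[P] H', Function.Bijective f

section General

variable {L : FirstOrder.Language.{u, v}}

/-- A structure generated by a finite tuple `x` is isomorphic to `H` as soon as some tuple `a` of `H`
has the type of `x` and every element of `H` looks over `a` like an element of `W` over `x`. -/
theorem exists_equiv' {W : Type w} [L.Structure W] {H : Type w'} [L.Structure H] {k : ℕ}
    (x : Fin k → W) (hgen : ∀ e : W, ∃ t : L.Term (Fin k), t.realize x = e) (a : Fin k → H)
    (hax : ∀ φ : L.Formula (Fin k), φ.Realize a ↔ φ.Realize x)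
    (hc : ∀ c : H, ∃ e : W, ∀ φ : L.Formula (Fin (k + 1)),
      φ.Realize (Fin.snoc a c : Fin (k + 1) → H) ↔ φ.Realize (Fin.snoc x e : Fin (k + 1) → W)) :
    Nonempty (W ≃[L] H) := by
  choose t ht using hgen
  have hterm : ∀ s s' : L.Term (Fin k), s.realize a = s'.realize a ↔ s.realize x = s'.realize x := by
    intro s s'
    have := hax (s.equal s')
    rw [Formula.realize_equal, Formula.realize_equal] at this
    exact this
  let f : W → H := fun e => (t e).realize a
  have hf : ∀ s : L.Term (Fin k), f (s.realize x) = s.realize a := by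
    intro s
    exact (hterm _ _).2 (ht _)
  have hinj : Function.Injective f := by
    intro e e' h
    have h1 := (hterm _ _).1 h
    rw [ht, ht] at h1
    exact h1
  have hsurj : Function.Surjective f := by
    intro c
    obtain ⟨e, he⟩ := hc c
    have h7 := he ((Term.var (Fin.last k)).equal ((t e).relabel Fin.castSucc))
    rw [Formula.realize_equal, Formula.realize_equal, Term.realize_relabel, Term.realize_relabel]
      at h7
    have h2 : ((Fin.snoc a c : Fin (k + 1) → H) ∘ Fin.castSucc) = a := by
      funext i; simp
    have h3 : ((Fin.snoc x e : Fin (k + 1) → W) ∘ Fin.castSucc) = x := by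
      funext i; simp
    rw [h2, h3, ht] at h7
    refine ⟨e, ?_⟩
    have h8 := h7.2 (by simp)
    rw [Term.realize_var] at h8
    simp only [Fin.snoc_last] at h8
    exact h8.symm
  refine ⟨{ toEquiv := _root_.Equiv.ofBijective f ⟨hinj, hsurj⟩
            map_fun' := ?_
            map_rel' := ?_ }⟩
  · intro n g v
    change f (Structure.funMap g v) = Structure.funMap g (f ∘ v)
    have h1 : Structure.funMap g v = (Term.func g fun i => t (v i)).realize x := by
      rw [Term.realize_func]
      congr 1
      funext i
      exact (ht _).symm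
    rw [h1, hf, Term.realize_func]
    rfl
  · intro n r v
    change Structure.RelMap r (f ∘ v) ↔ Structure.RelMap r v
    have h1 := hax (r.formula fun i => t (v i))
    rw [Formula.realize_rel, Formula.realize_rel] at h1
    have h2 : (fun i => (t (v i)).realize x) = v := by
      funext i
      exact ht _
    rw [h2] at h1
    exact h1

end General

section Free

variable {P : Type u} [Field P] {n : ℕ} {W : Type u} [NonUnitalRing W] [Module P W]
  [IsScalarTower P W W] [SMulCommClass P W W] {x : Fin n → W}

theorem tp_eq_of_aut {H : Type v} [NonUnitalRing H] [Module P H] {k : ℕ} (a b : Fin k → H)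
    (σ : H →ₙₐ[P] H) (hσ : Function.Bijective σ) (h : ∀ i, σ (a i) = b i) : tp P a = tp P b := by
  ext φ
  change φ.Realize a ↔ φ.Realize b
  rw [← StrongHomClass.realize_formula (PerfectRegular.toEquiv σ hσ) φ]
  have : (⇑(PerfectRegular.toEquiv σ hσ) ∘ a) = b := by funext i; exact h i
  rw [this]

/-- orbits are definable -/
theorem orbits (hx : IsFree P W x) : OrbitsDefinable P W := by
  intro k a
  obtain ⟨e, he, hex⟩ := hx.exists_emb
  have hgen := adjoin_eq_top he hex
  obtain ⟨B, ⟨β, hβ⟩, hBx, hB⟩ := exists_bas he hex
  choose t ht using fun i => PerfectRegular.exists_term hgen (a i)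
  have hdef : FDef P (fun v : Fin k → W => ∃ y : Fin n → W, B y ∧ ∀ i, v i = (t i).realize y) := by
    refine FDef.exFun (P := fun v (y : Fin n → W) => B y ∧ ∀ i, v i = (t i).realize y) ?_
    refine FDef.and ?_ (FDef.allFin fun i => FDef.eq (TDef.var _) ?_)
    · refine ⟨β.relabel Sum.inr, fun v => ?_⟩
      rw [Formula.realize_relabel, hβ]
      rfl
    · exact TDef.comap (K := P) (p := fun y : Fin n → W => (t i).realize y)
        ⟨t i, fun _ => rfl⟩ Sum.inr
  obtain ⟨ψ, hψ⟩ := hdef
  refine ⟨ψ, fun b => ⟨fun h => ?_, ?_⟩⟩
  · obtain ⟨y, hBy, hy⟩ := (hψ b).1 h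
    obtain ⟨σ, hσ, -⟩ := hx W y
    have hsurj : Function.Surjective σ := by
      intro z
      have hz : z ∈ NonUnitalAlgebra.adjoin P (Set.range y) := by
        rw [hB y hBy]; trivial
      have hle : NonUnitalAlgebra.adjoin P (Set.range y) ≤ NonUnitalAlgHom.range σ := by
        refine NonUnitalAlgebra.adjoin_le ?_
        rintro _ ⟨j, rfl⟩
        exact ⟨x j, hσ j⟩
      exact hle hz
    refine ⟨σ, ⟨hopf he hex σ hsurj, hsurj⟩, fun i => ?_⟩
    rw [← ht i, Pool.Agent.Helper771.FreeNilp.map_realize, hy i]
    congr 1
    funext j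
    exact hσ j
  · rintro ⟨σ, hσ, hab⟩
    have h1 : ψ.Realize a := (hψ a).2 ⟨x, hBx, fun i => (ht i).symm⟩
    have h2 := tp_eq_of_aut a b σ hσ hab
    exact (Set.ext_iff.1 h2 ψ).1 h1

/-- recognition from the types of `n+1`-tuples and one sentence -/
theorem separated (hx : IsFree P W x) : SeparatedBy.{u, v} P W (n + 1) := by
  obtain ⟨ψ, hψ⟩ := orbits hx n x
  have hgen : ∀ z : W, ∃ t : (lang P).Term (Fin n), t.realize x = z := by
    obtain ⟨e, he, hex⟩ := hx.exists_emb
    exact PerfectRegular.exists_term (adjoin_eq_top he hex)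
  -- the sentence
  let θ : (lang P).Sentence := Formula.iExs (Fin n) (ψ.relabel (Sum.inr : Fin n → Empty ⊕ Fin n))
  have hreal : ∀ {H' : Type v} [NonUnitalRing H'] [Module P H'],
      H' ⊨ θ ↔ ∃ y : Fin n → H', ψ.Realize y := by
    intro H' _ _
    change Formula.Realize θ _ ↔ _
    rw [Formula.realize_iExs]
    refine exists_congr fun y => ?_
    rw [Formula.realize_relabel]
    rfl
  have hrealW : W ⊨ θ := by
    change Formula.Realize θ _
    rw [Formula.realize_iExs]
    refine ⟨x, ?_⟩
    rw [Formula.realize_relabel]
    change ψ.Realize x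
    exact (hψ x).2 ⟨NonUnitalAlgHom.id P W, Function.bijective_id, fun i => rfl⟩
  refine ⟨θ, hrealW, ?_⟩
  intro H' _ _ _ _ hH hS
  obtain ⟨y, hy⟩ := hreal.1 hH
  -- the type of `(y, z)` is realised in `W`, by `(x, c)`
  have key : ∀ z : H', ∃ c : W, tp P (Fin.snoc y z : Fin (n + 1) → H') =
      tp P (Fin.snoc x c : Fin (n + 1) → W) := by
    intro z
    obtain ⟨b, hb⟩ := hS ⟨Fin.snoc y z, rfl⟩
    have h1 := Q202.LogReg.tp_castSucc (L := lang P) (a := b) (b := (Fin.snoc y z : Fin (n + 1) → H'))
      hb
    have h2 : (fun i : Fin n => (Fin.snoc y z : Fin (n + 1) → H') i.castSucc) = y := by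
      funext i; simp
    rw [h2] at h1
    have h3 : ψ.Realize (fun i : Fin n => b i.castSucc) :=
      (Q202.LogReg.realize_iff_of_tp h1 ψ).2 hy
    obtain ⟨σ, hσ, hσb⟩ := (hψ _).1 h3
    obtain ⟨c, hc⟩ := hσ.2 (b (Fin.last n))
    refine ⟨c, ?_⟩
    refine Eq.trans hb.symm ?_
    refine (tp_eq_of_aut _ b σ hσ fun i => ?_).symm
    refine Fin.lastCases ?_ (fun j => ?_) i
    · simpa using hc
    · simpa using hσb j
  have htp : tp P y = tp P x := by
    obtain ⟨c, hc⟩ := key 0
    have h1 := Q202.LogReg.tp_castSucc (L := lang P) hc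
    have h2 : (fun i : Fin n => (Fin.snoc y (0 : H') : Fin (n + 1) → H') i.castSucc) = y := by
      funext i; simp
    have h3 : (fun i : Fin n => (Fin.snoc x c : Fin (n + 1) → W) i.castSucc) = x := by
      funext i; simp
    rw [h2, h3] at h1
    exact h1
  obtain ⟨E⟩ := exists_equiv' (L := lang P) x hgen y
    (fun φ => Q202.LogReg.realize_iff_of_tp (L := lang P) htp φ) (fun z => by
      obtain ⟨c, hc⟩ := key z
      exact ⟨c, fun φ => Q202.LogReg.realize_iff_of_tp (L := lang P) hc φ⟩)
  obtain ⟨f, hf⟩ := PerfectRegular.exists_hom E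
  refine ⟨f, ?_⟩
  have : (f : W → H') = E := funext hf
  rw [this]
  exact E.bijective

end Free

/-- For every field `P` and every finite `X`: the free algebra `W(X)` of the variety of associative
`P`-algebras exists, and for every such `W = W(X)` (1) every orbit of `Aut W` on finite tuples is
defined by one formula without parameters; (2) there is one first-order sentence, true in `W`, such
that every associative `P`-algebra which satisfies it, and whose types of `(|X|+1)`-tuples are all
realised in `W`, is isomorphic to `W`. -/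
theorem result (P : Type u) [Field P] (X : Type) [Finite X] :
    (∃ (W : Type u) (_ : NonUnitalRing W) (_ : Module P W)
      (_ : IsScalarTower P W W) (_ : SMulCommClass P W W) (x : X → W), IsFree P W x) ∧
    ∀ (W : Type u) [NonUnitalRing W] [Module P W] [IsScalarTower P W W] [SMulCommClass P W W]
      (x : X → W), IsFree P W x → OrbitsDefinable P W ∧ SeparatedBy.{u, v} P W (Nat.card X + 1) := by
  refine ⟨PerfectRegular.exists_isFree P X, ?_⟩
  intro W _ _ _ _ x hx
  let e := Finite.equivFin X
  have h := hx.comp e.symm
  exact ⟨orbits h, separated h⟩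

end Pool.Agent.Results.MP_7ba13c_lc.DefinableOrbits
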