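import Pool.Agent.H85.LP.FA4
import Pool.Agent.H85.LP.Exist

/-!
# MP_7ba13c_lc: associative algebras over integral domains

The question is about fields. The answer is positive over all integral domains, for instance for
the variety of all associative rings (`K = ℤ`).
-/

set_option autoImplicit false

namespace Pool.Agent.Results.MP_7ba13c_lc.IntegralDomains

open FirstOrder Pool.Agent.V11250.IsoDefs Pool.Agent.V11250.DefTool Pool.Agent.H85.LP

universe u

/-- The orbits of tuples are definable. -/
theorem orb (K : Type u) [CommRing K] [IsDomain K] (r : ℕ) (A : Type u) [NonUnitalRing A]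
    [Module K A] [IsScalarTower K A A] [SMulCommClass K A A] (x : Fin r → A)
    (hx : IsFreeAss K r A x) (m : ℕ) (μ : Fin m → A) : ∃ φ : (algLang K).Formula (Fin m),
      ∀ ν : Fin m → A, φ.Realize ν ↔
        ∃ σ : A →ₙₐ[K] A, Function.Bijective σ ∧ ∀ i, σ (μ i) = ν i := by
  obtain ⟨M⟩ := exists_mdl hx
  obtain ⟨B, hB, hBx, hBgen⟩ := exists_pred M
  choose t ht using fun i => exists_term (adjoin_top M (μ i))
  have hD : Dfn (algLang K) (fun v : Fin m → A => ∃ y : Fin r → A, B y ∧
      ∀ i, v i = (t i).realize y) := by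
    refine Dfn.exs (P := fun (v : Fin m → A) (y : Fin r → A) => B y ∧
      ∀ i, v i = (t i).realize y) ?_
    refine Dfn.and (hB.relabel Sum.inr) (Dfn.forallFin fun i => Dfn.eq (TF.var _) ?_)
    exact ⟨(t i).relabel Sum.inr, fun v => by rw [Language.Term.realize_relabel]; rfl⟩
  obtain ⟨φ, hφ⟩ := hD
  refine ⟨φ, fun ν => ⟨fun h2 => ?_, ?_⟩⟩
  · obtain ⟨y, hy, hyt⟩ := (hφ ν).1 h2
    obtain ⟨σ, hσ, hσx⟩ := exists_aut hx y (hBgen y hy)
    refine ⟨σ, hσ, fun i => ?_⟩
    rw [← ht i, hom_realize, hyt i]
    congr 1
    funext k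
    exact hσx k
  · rintro ⟨σ, hσ, h⟩
    have h1 : φ.Realize μ := (hφ μ).2 ⟨x, hBx, fun i => (ht i).symm⟩
    exact (Set.ext_iff.1 (tp_eq_of_aut μ ν σ hσ h) φ).1 h1

/-- Over an integral domain the variety is logically perfect and regular. -/
theorem perfect_regular (K : Type u) [CommRing K] [IsDomain K] :
    LogicallyPerfect K ∧ LogicallyRegular K := by
  -- homogeneity
  have hom : ∀ (r : ℕ) (A : Type u) [NonUnitalRing A] [Module K A] [IsScalarTower K A A]
      [SMulCommClass K A A] (x : Fin r → A), IsFreeAss K r A x → Homogeneous K A := by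
    intro r A _ _ _ _ x hx m μ ν
    constructor
    · intro h
      obtain ⟨φ, hφ⟩ := orb K r A x hx m μ
      have h1 : φ.Realize μ := (hφ μ).2 ⟨NonUnitalAlgHom.id K A, Function.bijective_id,
        fun i => rfl⟩
      exact (hφ ν).1 ((Set.ext_iff.1 h φ).1 h1)
    · rintro ⟨σ, hσ, h⟩
      exact tp_eq_of_aut μ ν σ hσ h
  refine ⟨hom, ?_⟩
  -- separability
  intro r A _ _ _ _ x hx B _ _ _ _ hiso
  obtain ⟨M⟩ := exists_mdl hx
  obtain ⟨y, hxy, hy⟩ := exists_gen x 0 (by
    intro ν hν a
    obtain ⟨σ, hσ, h⟩ := (hom r A x hx r x ν).1 hν.symm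
    obtain ⟨b, rfl⟩ := hσ.2 a
    obtain ⟨t, rfl⟩ := exists_term (adjoin_top M b)
    refine ⟨t, ?_⟩
    rw [hom_realize]
    congr 1
    funext i
    exact (h i).symm) hiso
  obtain ⟨f, hf, _⟩ := hx B y
  have hft : ∀ t : (algLang K).Term (Fin r), f (t.realize x) = t.realize y := by
    intro t
    rw [hom_realize]
    congr 1
    funext i
    exact hf i
  refine ⟨f, ?_, ?_⟩
  · rw [injective_iff_map_eq_zero]
    intro a ha
    obtain ⟨t, rfl⟩ := exists_term (adjoin_top M a)
    rw [hft] at ha
    have h0 : ∀ {C : Type u} [NonUnitalRing C] [Module K C] (v : Fin r → C),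
        (zeroT K : (algLang K).Term (Fin r)).realize v = 0 := fun _ => rfl
    have h1 := (eq_iff_of_tp hxy t (zeroT K)).2
    rw [h0, h0] at h1
    exact h1 ha
  · intro u
    obtain ⟨t, rfl⟩ := hy u
    exact ⟨t.realize x, hft t⟩

/-- Let `K` be an integral domain (for instance a field, or the ring of integers).

1. The variety of all associative (not necessarily unital) `K`-algebras is logically perfect and
   logically regular.
2. For every free algebra `A` of finite rank of this variety and every tuple `μ` of elements of `A`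
   there is one formula which defines the orbit of `μ` under the automorphism group of `A`; in
   particular the set of the free bases of `A` is definable without parameters.
3. In particular (`K = ℤ`) the variety of all associative rings is logically perfect and logically
   regular.
4. The free algebras of finite rank exist, over every commutative ring. -/
theorem result :
    (∀ (K : Type u) [CommRing K] [IsDomain K], LogicallyPerfect K ∧ LogicallyRegular K) ∧
    (∀ (K : Type u) [CommRing K] [IsDomain K] (r : ℕ) (A : Type u) [NonUnitalRing A] [Module K A]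
      [IsScalarTower K A A] [SMulCommClass K A A] (x : Fin r → A), IsFreeAss K r A x →
      ∀ (m : ℕ) (μ : Fin m → A), ∃ φ : (algLang K).Formula (Fin m), ∀ ν : Fin m → A,
        φ.Realize ν ↔ ∃ σ : A →ₙₐ[K] A, Function.Bijective σ ∧ ∀ i, σ (μ i) = ν i) ∧
    (LogicallyPerfect ℤ ∧ LogicallyRegular ℤ) ∧
    ∀ (K : Type u) [CommRing K] (r : ℕ), ∃ (A : Type u) (_ : NonUnitalRing A) (_ : Module K A)
      (_ : IsScalarTower K A A) (_ : SMulCommClass K A A) (x : Fin r → A), IsFreeAss K r A x := by
  exact ⟨fun K _ _ => perfect_regular K, fun K _ _ r A _ _ _ _ x hx m μ => orb K r A x hx m μ,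
    perfect_regular ℤ, fun K _ r => ⟨AugI K r, inferInstance, inferInstance, inferInstance,
      inferInstance, gen K r, isFree_aug K r⟩⟩

end Pool.Agent.Results.MP_7ba13c_lc.IntegralDomains
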